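import Pool.Agent.EGF.StmtsQ
import Pool.Agent.Helper92_EGF.RED

/-! Row RD3 of squad EGF: reduction to all sizes at least 3 (after Helper92_EGF/RED.lean). -/

set_option autoImplicit false

open Finset

namespace Pool.Agent.EGF.H94

open Pool.Agent.EGF.H92

theorem rd3 : Rd3Stmt := by
  intro V _ _ k c p hs hp hG hV
  rcases Nat.eq_zero_or_pos k with hk | hk
  · subst hk
    have hemp : IsEmpty V := ⟨fun v => (c v v).elim0⟩
    refine ⟨∅, ?_, ?_⟩
    · rw [Fintype.card_eq_zero]
      exact Nat.zero_le _
    · intro q hq _ S hS hSq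
      rw [subset_empty.1 hS, card_empty] at hSq
      omega
  have key : ∀ i, i ≤ p - 3 → ∃ U : Finset V, Fintype.card V ≤ (2 * k) ^ i * U.card ∧
      ∀ q, p - i ≤ q → q ≤ p → ∀ S ⊆ U, S.card = q → q - 1 ≤ (pal c S).card := by
    intro i
    induction i with
    | zero =>
      intro _
      refine ⟨univ, ?_, ?_⟩
      · rw [pow_zero, one_mul, card_univ]
      · intro q hq1 hq2 S _ hS
        have : q = p := by omega
        subst this
        exact hG S hS
    | succ i ih =>
      intro hi
      obtain ⟨U, hU1, hU2⟩ := ih (by omega)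
      have hkp : 0 < (2 * k) ^ i := by positivity
      have h2 : 2 ≤ U.card := by
        have h3 : (2 * k) ^ i ≤ (2 * k) ^ p := Nat.pow_le_pow_right (by omega) (by omega)
        have h4 : (2 * k) ^ i * 2 ≤ (2 * k) ^ i * U.card := by
          calc (2 * k) ^ i * 2 ≤ (2 * k) ^ p * 2 := Nat.mul_le_mul_right _ h3
            _ = 2 * (2 * k) ^ p := mul_comm _ _
            _ ≤ _ := hV.trans hU1
        exact Nat.le_of_mul_le_mul_left h4 hkp
      obtain ⟨v, hv⟩ : U.Nonempty := card_pos.1 (by omega)
      obtain ⟨a, ha⟩ := pig c U v hv hk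
      refine ⟨nb c U a v, ?_, ?_⟩
      · have h3 : U.card ≤ 2 * k * (nb c U a v).card := by
          have : 2 * k * (nb c U a v).card = 2 * (k * (nb c U a v).card) := by ring
          omega
        calc Fintype.card V ≤ (2 * k) ^ i * U.card := hU1
          _ ≤ (2 * k) ^ i * (2 * k * (nb c U a v).card) := Nat.mul_le_mul_left _ h3
          _ = (2 * k) ^ (i + 1) * (nb c U a v).card := by ring
      · intro q hq1 hq2
        by_cases hqp : q = p
        · intro S hS hSq
          refine hU2 q (by omega) hq2 S (hS.trans ?_) hSq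
          unfold nb
          exact filter_subset _ _
        · exact stepG c hs U a v hv q (hU2 (q + 1) (by omega) (by omega))
  obtain ⟨U, hU1, hU2⟩ := key (p - 3) le_rfl
  refine ⟨U, ?_, ?_⟩
  · refine hU1.trans (Nat.mul_le_mul_right _ (Nat.pow_le_pow_right (by omega) (by omega)))
  · intro q hq1 hq2
    exact hU2 q (by omega) hq2

end Pool.Agent.EGF.H94
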